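import Pool.Agent.Lib.MP_7c0edd_co.helper21.Gadget
import Pool.Agent.Lib.MP_7c0edd_co.helper21.Final
import Pool.Agent.Lib.MP_7c0edd_co.H26.Spec

section
/-!
# The gadget from a random set of words
-/
set_option autoImplicit false

namespace Pool.Agent.Lib.MP_7c0edd_co.Poly

open Finset Pool.Agent.Lib.MP_7c0edd_co.H21

section count

variable {X : Type*} [Fintype X] [DecidableEq X] (M : ℕ) [NeZero M]

/-- functions which avoid `0` on `Q` -/
lemma card_avoid_zero (Q : Finset X) :
    (univ.filter (fun φ : X → Fin M => ∀ x ∈ Q, φ x ≠ 0)).card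
      = (M - 1) ^ Q.card * M ^ (Fintype.card X - Q.card) := by
  classical
  have h1 : univ.filter (fun φ : X → Fin M => ∀ x ∈ Q, φ x ≠ 0)
      = Fintype.piFinset (fun x => if x ∈ Q then ({0}ᶜ : Finset (Fin M)) else univ) := by
    ext φ
    rw [mem_filter, Fintype.mem_piFinset]
    constructor
    · rintro ⟨_, h⟩ x
      by_cases hx : x ∈ Q
      · simpa [hx] using h x hx
      · simp [hx]
    · intro h
      refine ⟨mem_univ _, fun x hx => ?_⟩
      have := h x
      simpa [hx] using this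
  rw [h1, Fintype.card_piFinset]
  have h2 : ∀ x : X, (if x ∈ Q then ({0}ᶜ : Finset (Fin M)) else univ).card
      = if x ∈ Q then M - 1 else M := by
    intro x
    by_cases hx : x ∈ Q
    · simp [hx, card_compl]
    · simp [hx]
  simp_rw [h2]
  rw [prod_ite, prod_const, prod_const]
  congr 2
  · congr 1
    ext x
    simp
  · have : (univ.filter (fun x => x ∉ Q)) = Qᶜ := by ext; simp
    rw [this, card_compl]

/-- functions which are `0` at a point -/
lemma card_zero_at (x : X) :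
    M * (univ.filter (fun φ : X → Fin M => φ x = 0)).card = Fintype.card (X → Fin M) := by
  classical
  have h1 := card_avoid_zero M ({x} : Finset X)
  have h2 := card_filter_add_card_filter_not (s := (univ : Finset (X → Fin M))) (fun φ => φ x = 0)
  have h3 : univ.filter (fun φ : X → Fin M => ∀ y ∈ ({x} : Finset X), φ y ≠ 0)
      = univ.filter (fun φ : X → Fin M => ¬ φ x = 0) := by
    ext φ; simp
  rw [h3] at h1
  rw [h1, card_univ, card_singleton, pow_one] at h2
  have hX : 0 < Fintype.card X := Fintype.card_pos_iff.mpr ⟨x⟩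
  have h4 : Fintype.card (X → Fin M) = M * M ^ (Fintype.card X - 1) := by
    rw [Fintype.card_fun, Fintype.card_fin, ← pow_succ']
    congr 1
    omega
  have hM : 0 < M := Nat.pos_of_ne_zero (NeZero.ne M)
  obtain ⟨m, rfl⟩ : ∃ m, M = m + 1 := ⟨M - 1, by omega⟩
  rw [h4] at h2 ⊢
  simp only [Nat.add_sub_cancel] at h2
  have h5 : (univ.filter (fun φ : X → Fin (m + 1) => φ x = 0)).card
      = (m + 1) ^ (Fintype.card X - 1) := by
    have : (m + 1) * (m + 1) ^ (Fintype.card X - 1) = m * (m + 1) ^ (Fintype.card X - 1)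
        + (m + 1) ^ (Fintype.card X - 1) := by ring
    omega
  rw [h5]

lemma card_avoid_le (Q : Finset X) :
    ((univ.filter (fun φ : X → Fin M => ∀ x ∈ Q, φ x ≠ 0)).card : ℝ)
      ≤ Real.exp (-(Q.card : ℝ) / M) * Fintype.card (X → Fin M) := by
  classical
  have hM : 0 < M := Nat.pos_of_ne_zero (NeZero.ne M)
  have hM' : (0 : ℝ) < M := by exact_mod_cast hM
  rw [card_avoid_zero, Fintype.card_fun, Fintype.card_fin]
  have hQ : Q.card ≤ Fintype.card X := card_le_univ Q
  push_cast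
  have h1 : ((M - 1 : ℕ) : ℝ) ≤ M * Real.exp (-1 / M) := by
    rw [Nat.cast_sub hM]
    have h6 := Real.add_one_le_exp (-1 / (M : ℝ))
    have h7 : (M : ℝ) * (-1 / M + 1) = M - 1 := by field_simp; ring
    push_cast
    nlinarith
  calc ((M - 1 : ℕ) : ℝ) ^ Q.card * (M : ℝ) ^ (Fintype.card X - Q.card)
      ≤ (M * Real.exp (-1 / M)) ^ Q.card * (M : ℝ) ^ (Fintype.card X - Q.card) := by gcongr
    _ = Real.exp (-1 / M) ^ Q.card * ((M : ℝ) ^ Q.card * (M : ℝ) ^ (Fintype.card X - Q.card)) := by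
        rw [mul_pow]; ring
    _ = _ := by
        rw [← pow_add, Nat.add_sub_cancel' hQ, ← Real.exp_nat_mul]
        congr 2
        ring

end count

/-- The gadget from a random set of words. -/
theorem rgadget (k t M : ℕ) (hM : 0 < M) (htk : t ≤ k) :
    Gadget k t M (Real.exp (-(2 ^ t * k.choose t : ℝ) / M)) := by
  classical
  have : NeZero M := ⟨hM.ne'⟩
  intro p α β hα hβ
  set P : ℝ := Real.exp (-(2 ^ t * k.choose t : ℝ) / M) with hP
  have hM' : (0 : ℝ) < M := by exact_mod_cast hM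
  let A : (W p → Fin M) → Finset (W p) := fun φ => (words p (k - t)).filter (fun w => φ w = 0)
  let B : (W p → Fin M) → Finset (W p) := fun φ =>
    (words p k).filter (fun y => ∀ w ∈ sub1 y (stars y) t, φ w ≠ 0)
  set Tot : ℝ := ((Fintype.card (W p → Fin M) : ℕ) : ℝ) with hTot
  have hTotpos : 0 < Tot := by
    rw [hTot]; exact_mod_cast Fintype.card_pos
  have hA : ∑ φ, ((A φ).card : ℝ) = (words p (k - t)).card * (Tot / M) := by
    have h1 : ∑ φ, (A φ).card = ∑ w ∈ words p (k - t),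
        (univ.filter (fun φ : W p → Fin M => φ w = 0)).card :=
      sum_card_bipartiteAbove_eq_sum_card_bipartiteBelow
        (fun (φ : W p → Fin M) (w : W p) => φ w = 0)
    have h2 : ∀ w ∈ words p (k - t),
        ((univ.filter (fun φ : W p → Fin M => φ w = 0)).card : ℝ) = Tot / M := by
      intro w _
      rw [eq_div_iff hM'.ne', hTot, ← card_zero_at M w]
      push_cast
      ring
    calc ∑ φ, ((A φ).card : ℝ) = ((∑ φ, (A φ).card : ℕ) : ℝ) := by push_cast; rfl
      _ = ∑ w ∈ words p (k - t), ((univ.filter (fun φ : W p → Fin M => φ w = 0)).card : ℝ) := by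
          rw [h1]; push_cast; rfl
      _ = _ := by rw [sum_congr rfl h2, sum_const, nsmul_eq_mul]
  have hB : ∑ φ, ((B φ).card : ℝ) ≤ (words p k).card * (P * Tot) := by
    have h1 : ∑ φ, (B φ).card = ∑ y ∈ words p k,
        (univ.filter (fun φ : W p → Fin M => ∀ w ∈ sub1 y (stars y) t, φ w ≠ 0)).card :=
      sum_card_bipartiteAbove_eq_sum_card_bipartiteBelow
        (fun (φ : W p → Fin M) (y : W p) => ∀ w ∈ sub1 y (stars y) t, φ w ≠ 0)
    have h2 : ∀ y ∈ words p k,
        ((univ.filter (fun φ : W p → Fin M => ∀ w ∈ sub1 y (stars y) t, φ w ≠ 0)).card : ℝ)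
          ≤ P * Tot := by
      intro y hy
      have h3 := card_avoid_le M (sub1 y (stars y) t)
      rw [card_sub1 y (stars y) subset_rfl, mem_words.mp hy] at h3
      push_cast at h3
      rw [hP, hTot]
      exact h3
    calc ∑ φ, ((B φ).card : ℝ) = ((∑ φ, (B φ).card : ℕ) : ℝ) := by push_cast; rfl
      _ = ∑ y ∈ words p k, ((univ.filter (fun φ : W p → Fin M =>
          ∀ w ∈ sub1 y (stars y) t, φ w ≠ 0)).card : ℝ) := by rw [h1]; push_cast; rfl
      _ ≤ ∑ y ∈ words p k, P * Tot := sum_le_sum h2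
      _ = _ := by rw [sum_const, nsmul_eq_mul]
  have hsum : ∑ φ, (α * ((A φ).card : ℝ) + β * (B φ).card)
      ≤ ∑ _φ : W p → Fin M, (α * ((words p (k - t)).card / M) + β * (P * (words p k).card)) := by
    rw [sum_add_distrib, ← mul_sum, ← mul_sum, sum_const, card_univ, nsmul_eq_mul, ← hTot, hA]
    calc α * ((words p (k - t)).card * (Tot / M)) + β * ∑ φ, ((B φ).card : ℝ)
        ≤ α * ((words p (k - t)).card * (Tot / M)) + β * ((words p k).card * (P * Tot)) := by
          gcongr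
      _ = _ := by ring
  obtain ⟨φ, _, hφ⟩ := exists_le_of_sum_le univ_nonempty hsum
  refine ⟨(A φ).image (fun w => List.ofFn w), (B φ).image (fun w => List.ofFn w), ?_, ?_, ?_, ?_⟩
  · exact image_subset_image (filter_subset _ _)
  · exact image_subset_image (filter_subset _ _)
  · intro x hx
    obtain ⟨y, hy, rfl⟩ := mem_image.mp hx
    by_cases hun : ∀ w ∈ sub1 y (stars y) t, φ w ≠ 0
    · left
      exact mem_image_of_mem _ (mem_filter.mpr ⟨hy, hun⟩)
    · right
      push Not at hun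
      obtain ⟨w, hw, hw0⟩ := hun
      rw [mem_sub1] at hw
      refine ⟨List.ofFn w, mem_image_of_mem _ (mem_filter.mpr ⟨?_, hw0⟩), LB_ofFn.mpr hw.1⟩
      rw [mem_words] at hy ⊢
      have h4 := card_sdiff_of_subset (stars_subset hw.1)
      have h6 := card_le_card (stars_subset hw.1)
      omega
  · rw [card_image_of_injective _ List.ofFn_injective,
      card_image_of_injective _ List.ofFn_injective]
    have e1 : (WL p (k - t)).card = (words p (k - t)).card := by
      rw [card_WL, card_words]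
    have e2 : (WL p k).card = (words p k).card := by
      rw [card_WL, card_words]
    rw [e1, e2]
    exact hφ

end Pool.Agent.Lib.MP_7c0edd_co.Poly
end

section
/-!
# The recursion with random gadgets: from a polynomial factor in `d` to a factor in `d - l`
-/
set_option autoImplicit false

namespace Pool.Agent.Lib.MP_7c0edd_co.Poly

open Finset Pool.Agent.Lib.MP_7c0edd_co.H21

/-- the parameter of the recursion -/
noncomputable def av (t : ℕ) : ℝ := Real.log 2 + (t + 5) * Real.log (t + 2)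

lemma av_pos {t : ℕ} (ht : 1 ≤ t) : 1 ≤ av t := by
  unfold av
  have h1 : (0.6931471803 : ℝ) < Real.log 2 := Real.log_two_gt_d9
  have h2 : Real.log 2 ≤ Real.log ((t : ℝ) + 2) := Real.log_le_log (by norm_num) (by
    have : (0 : ℝ) ≤ t := by positivity
    linarith)
  have h3 : (1 : ℝ) ≤ t := by exact_mod_cast ht
  nlinarith

lemma exp_neg_av (t : ℕ) : Real.exp (-(av t)) = 1 / (2 * ((t : ℝ) + 2) ^ (t + 5)) := by
  unfold av
  have h4 : (0 : ℝ) < (t : ℝ) + 2 := by positivity
  rw [Real.exp_neg, Real.exp_add, Real.exp_log (by norm_num)]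
  have : Real.exp (((t : ℝ) + 5) * Real.log (t + 2)) = ((t : ℝ) + 2) ^ (t + 5) := by
    rw [show ((t : ℝ) + 5) * Real.log (t + 2) = ((t + 5 : ℕ) : ℝ) * Real.log (t + 2) by push_cast; ring,
      Real.exp_nat_mul, Real.exp_log h4]
  rw [this, one_div]

lemma one_add_six_pow {t : ℕ} (ht : 1 ≤ t) : (1 + 6 / (t : ℝ)) ^ t ≤ 441 := by
  have htpos : (0 : ℝ) < t := by exact_mod_cast ht
  have h1 : 1 + 6 / (t : ℝ) ≤ Real.exp (6 / (t : ℝ)) := by
    have := Real.add_one_le_exp (6 / (t : ℝ))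
    linarith
  have h2 : (1 + 6 / (t : ℝ)) ^ t ≤ Real.exp (6 / (t : ℝ)) ^ t := by gcongr
  have h3 : Real.exp (6 / (t : ℝ)) ^ t = Real.exp 6 := by
    rw [← Real.exp_nat_mul]
    congr 1
    field_simp
  have h6 : Real.exp 6 = Real.exp 1 ^ 6 := by rw [← Real.exp_nat_mul]; norm_num
  have h7 := Real.exp_one_lt_d9
  have h8 : Real.exp 1 ^ 6 ≤ 2.7182818286 ^ 6 := by
    have := Real.exp_pos 1
    gcongr
  have h9 : (2.7182818286 : ℝ) ^ 6 ≤ 441 := by norm_num
  linarith

/-- the range of the recursion -/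
def Cnd (t l : ℕ) : Prop := 1 ≤ t ∧ t * t ≤ l ∧ (4 ≤ t ∨ 36 ≤ l)

/-- One step of the recursion. -/
theorem rat_step' {t l : ℕ} (hc : Cnd t l) {D : ℝ} (hD : 0 ≤ D) (hR : Rat t (l / (t + 1)) D) :
    Rat t l (882 * av t + D / (2 * ((t : ℝ) + 2) ^ 5)) := by
  obtain ⟨ht, htl, h4⟩ := hc
  set q := l / (t + 1) with hq
  have hl1 : (t + 1) * q ≤ l := Nat.mul_div_le l (t + 1)
  have hl2 : l < (t + 1) * (q + 1) := Nat.lt_mul_div_succ l (show 0 < t + 1 by omega)
  have htq : t ≤ q + 1 := by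
    by_contra hcon
    push Not at hcon
    have h1 : q + 1 ≤ t - 1 := by omega
    have h2 : (t + 1) * (q + 1) ≤ (t + 1) * (t - 1) := Nat.mul_le_mul_left _ h1
    have h3 : (t + 1) * (t - 1) ≤ t * t := by
      obtain ⟨s, rfl⟩ : ∃ s, t = s + 1 := ⟨t - 1, by omega⟩
      simp only [Nat.add_sub_cancel]
      nlinarith
    omega
  have hc1 : l + t ≤ (t + 2) * (q + 1) := by
    have : (t + 2) * (q + 1) = (t + 1) * (q + 1) + (q + 1) := by ring
    omega
  have hkey : (2 * t + 6) * (t + 1) ≤ 5 * l := by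
    rcases h4 with h | h
    · nlinarith
    · rcases Nat.lt_or_ge t 4 with h' | h'
      · have : t + 1 ≤ 4 := by omega
        have h5 : (2 * t + 6) * (t + 1) ≤ 12 * 4 := Nat.mul_le_mul (by omega) this
        omega
      · nlinarith
  -- `k = l - q - 1`
  have hqt : q + 1 + t ≤ l := by
    have h5 : (t + 1) * (q + 1 + t) ≤ (t + 1) * l := by
      have h6 : (t + 1) * (q + 1 + t) = (t + 1) * q + (t + 1) * (t + 1) := by ring
      have h7 : (t + 1) * (t + 1) ≤ t * l := by
        have h8 : 5 * ((t + 1) * (t + 1)) ≤ 5 * (t * l) := by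
          have h9 : t * ((2 * t + 6) * (t + 1)) ≤ t * (5 * l) := Nat.mul_le_mul_left _ hkey
          have h10 : 5 * ((t + 1) * (t + 1)) ≤ t * ((2 * t + 6) * (t + 1)) + 5 * (t + 1) := by
            nlinarith
          rcases Nat.lt_or_ge t 2 with h' | h'
          · have : t = 1 := by omega
            subst this
            have : 36 ≤ l := by omega
            omega
          · have h11 : 5 * (t + 1) ≤ t * (2 * t + 6) := by nlinarith
            have h12 : 5 * ((t + 1) * (t + 1)) ≤ t * ((2 * t + 6) * (t + 1)) := by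
              calc 5 * ((t + 1) * (t + 1)) = (5 * (t + 1)) * (t + 1) := by ring
                _ ≤ (t * (2 * t + 6)) * (t + 1) := Nat.mul_le_mul_right _ h11
                _ = _ := by ring
            calc _ ≤ _ := h12
              _ ≤ _ := h9
              _ = _ := by ring
        omega
      have h8 : (t + 1) * l = l + t * l := by ring
      omega
    exact Nat.le_of_mul_le_mul_left h5 (by omega)
  obtain ⟨k, hk⟩ : ∃ k, k = l - q - 1 := ⟨_, rfl⟩
  have hkl : k + 1 + q = l := by omega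
  have htk : t ≤ k := by omega
  have hc3 : t * (l + t) ≤ (t + 6) * (k + 1 - t) := by
    have h5 : k + 1 - t = l - q - t := by omega
    have h6 : (k + 1 - t) + (q + t) = l := by omega
    -- multiply by `t + 1`
    have h7 : (t + 1) * (t * (l + t)) ≤ (t + 1) * ((t + 6) * (k + 1 - t)) := by
      have h8 : t * l ≤ (t + 1) * (k + 1 - t) + (t + 1) * t := by
        have : (t + 1) * (k + 1 - t) + (t + 1) * t + (t + 1) * q = (t + 1) * l := by
          rw [← h6]; ring
        have h9 : (t + 1) * l = t * l + l := by ring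
        omega
      have h9 : (t + 6) * (t * l) ≤ (t + 6) * ((t + 1) * (k + 1 - t) + (t + 1) * t) :=
        Nat.mul_le_mul_left _ h8
      have h10 : (t + 1) * (t * (l + t)) + (t + 6) * ((t + 1) * t) ≤ (t + 6) * (t * l) := by
        have h11 : t * ((2 * t + 6) * (t + 1)) ≤ t * (5 * l) := Nat.mul_le_mul_left _ hkey
        nlinarith
      nlinarith
    exact Nat.le_of_mul_le_mul_left h7 (by omega)
  have ha := av_pos ht
  have hapos : 0 < av t := by linarith
  have htpos : (0 : ℝ) < t := by exact_mod_cast ht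
  set K' : ℝ := 2 ^ t * k.choose t with hK'
  have hK'pos : 0 < K' := by
    have : (0 : ℝ) < (k.choose t : ℝ) := by exact_mod_cast Nat.choose_pos htk
    positivity
  have hf : (0 : ℝ) < (t.factorial : ℝ) := by exact_mod_cast Nat.factorial_pos _
  have hKK' : KK t l ≤ 441 * K' := by
    have h1 := choose_upper l t
    have h2 := choose_lower' k t
    have h3 : (t : ℝ) * ((l : ℝ) + t) ≤ ((t : ℝ) + 6) * ((k + 1 - t : ℕ) : ℝ) := by
      exact_mod_cast hc3
    have h5 : ((l : ℝ) + t) ≤ (1 + 6 / (t : ℝ)) * ((k + 1 - t : ℕ) : ℝ) := by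
      have e1 : (1 + 6 / (t : ℝ)) = ((t : ℝ) + 6) / t := by field_simp
      rw [e1, div_mul_eq_mul_div, le_div_iff₀ htpos]
      linarith
    have h6 : ((l + t).choose t : ℝ) * (t.factorial : ℝ) ≤ (441 * (k.choose t : ℝ)) * t.factorial := by
      calc _ ≤ ((l : ℝ) + t) ^ t := h1
        _ ≤ ((1 + 6 / (t : ℝ)) * ((k + 1 - t : ℕ) : ℝ)) ^ t := by gcongr
        _ = (1 + 6 / (t : ℝ)) ^ t * ((k + 1 - t : ℕ) : ℝ) ^ t := mul_pow _ _ _
        _ ≤ 441 * ((k.choose t : ℝ) * (t.factorial : ℝ)) :=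
            mul_le_mul (one_add_six_pow ht) h2 (by positivity) (by norm_num)
        _ = _ := by ring
    have h7 := le_of_mul_le_mul_right h6 hf
    unfold KK
    rw [hK']
    calc (2 : ℝ) ^ t * ((l + t).choose t : ℝ) ≤ 2 ^ t * (441 * (k.choose t : ℝ)) := by gcongr
      _ = _ := by ring
  have hDt : 0 ≤ D / (2 * ((t : ℝ) + 2) ^ 5) := by positivity
  rcases lt_or_ge K' (av t) with hsmall | hbig
  · refine rat_trivial ?_
    nlinarith
  have hxa : 1 ≤ K' / av t := by
    rw [le_div_iff₀ hapos, one_mul]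
    exact hbig
  set M := ⌊K' / av t⌋₊ with hM
  have hMle : (M : ℝ) ≤ K' / av t := Nat.floor_le (by positivity)
  have hM1 : 1 ≤ M := Nat.one_le_floor_iff _ |>.mpr hxa
  have hMge : K' / av t ≤ 2 * M := by
    have h1 := Nat.lt_floor_add_one (K' / av t)
    have h2 : (1 : ℝ) ≤ M := by exact_mod_cast hM1
    rw [← hM] at h1
    linarith
  have hM0 : (0 : ℝ) < M := by exact_mod_cast hM1
  set P : ℝ := Real.exp (-(2 ^ t * k.choose t : ℝ) / M) with hP
  have hP0 : 0 ≤ P := by positivity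
  have hPle : P ≤ 1 / (2 * ((t : ℝ) + 2) ^ (t + 5)) := by
    rw [hP, ← hK', ← exp_neg_av]
    refine Real.exp_le_exp.mpr ?_
    rw [neg_div, neg_le_neg_iff, le_div_iff₀ hM0]
    rw [le_div_iff₀ hapos] at hMle
    linarith
  have hstep := Good.step (rgadget k t M hM1 htk) htk hR
    (div_nonneg hD (KK_pos _ _).le) hM0 hP0
  rw [hkl] at hstep
  refine good_mono hstep ?_
  rw [← hP]
  -- ratio of the counting bounds
  have hratio : KK t l ≤ ((t : ℝ) + 2) ^ t * KK t q := by
    unfold KK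
    have h1 := choose_upper l t
    have h2 := choose_lower q t
    have h3 : ((l : ℝ) + t) ≤ ((t : ℝ) + 2) * ((q : ℝ) + 1) := by exact_mod_cast hc1
    have h4 : ((l : ℝ) + t) ^ t ≤ (((t : ℝ) + 2) * ((q : ℝ) + 1)) ^ t := by gcongr
    rw [mul_pow] at h4
    have h5 : ((l + t).choose t : ℝ) * (t.factorial : ℝ)
        ≤ (((t : ℝ) + 2) ^ t * ((q + t).choose t : ℝ)) * (t.factorial : ℝ) := by
      calc _ ≤ _ := h1.trans h4
        _ ≤ ((t : ℝ) + 2) ^ t * (((q + t).choose t : ℝ) * (t.factorial : ℝ)) := by gcongr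
        _ = _ := by ring
    have h6 := le_of_mul_le_mul_right h5 hf
    calc (2 : ℝ) ^ t * ((l + t).choose t : ℝ)
        ≤ 2 ^ t * (((t : ℝ) + 2) ^ t * ((q + t).choose t : ℝ)) := by gcongr
      _ = _ := by ring
  have hKpos := KK_pos t l
  have hKqpos := KK_pos t q
  rw [le_div_iff₀ hKpos, add_mul]
  have e1 : 1 / (M : ℝ) * KK t l ≤ 882 * av t := by
    rw [one_div, inv_mul_le_iff₀ hM0]
    rw [div_le_iff₀ hapos] at hMge
    nlinarith
  have e2 : P * (D / KK t q) * KK t l ≤ D / (2 * ((t : ℝ) + 2) ^ 5) := by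
    calc P * (D / KK t q) * KK t l
        ≤ (1 / (2 * ((t : ℝ) + 2) ^ (t + 5))) * (D / KK t q) * (((t : ℝ) + 2) ^ t * KK t q) := by
          have : 0 ≤ D / KK t q := by positivity
          gcongr
      _ = _ := by
          rw [pow_add]
          field_simp
  linarith

/-- from the limiting density to coverings -/
lemma good_of_cLim {l d : ℕ} (hl : l ≤ d) {a : ℝ} (h : cLim d l ≤ a) : Good l d a := by
  classical
  intro n
  rcases Nat.lt_or_ge n l with hn | hn
  · refine ⟨∅, empty_subset _, ?_, ?_⟩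
    · intro x hx
      exfalso
      rw [mem_WL] at hx
      have := List.count_le_length (a := (none : Option Bool)) (l := x)
      omega
    · rw [card_WL, Nat.choose_eq_zero_of_lt hn]
      simp
  obtain ⟨S, hS, hSc⟩ := exists_wcov_card_f (n := n) hl
  refine ⟨S.image (fun w => List.ofFn w), ?_, ?_, ?_⟩
  · exact image_subset_image fun w hw => mem_words.mpr (hS.1 w hw)
  · intro x hx
    obtain ⟨y, hy, rfl⟩ := mem_image.mp hx
    obtain ⟨w, hw, hwy⟩ := hS.2 y (mem_words.mp hy)
    exact ⟨List.ofFn w, mem_image_of_mem _ hw, LB_ofFn.mpr hwy⟩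
  · rw [card_image_of_injective _ List.ofFn_injective, hSc, card_WL]
    have h1 := (c_le_cLim hl n).trans h
    have hp : (0 : ℝ) < n.choose l := by exact_mod_cast Nat.choose_pos hn
    unfold c at h1
    rw [div_le_iff₀ (by positivity)] at h1
    push_cast
    exact h1

/-- the recursion for one value of `t` -/
theorem rat_log {t : ℕ} (ht4 : 4 ≤ t) {C : ℝ} (hC : 0 ≤ C)
    (H : ∀ l, l ≤ t ^ 2 → Rat t l (C * (((l : ℝ) + t) ^ 2 * Real.sqrt t))) (l : ℕ)
    (hl : t ^ 2 ≤ l) : Rat t l ((1764 + 72 * C) * av t) := by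
  induction l using Nat.strong_induction_on with
  | _ l ih =>
    have hc : Cnd t l := ⟨by omega, by nlinarith, Or.inl ht4⟩
    have ht := hc.1
    have ha := av_pos ht
    have ht' : (1 : ℝ) ≤ t := by exact_mod_cast ht
    have hql : l / (t + 1) < l := Nat.div_lt_self (by
      have := hc.2.1
      nlinarith) (by omega)
    by_cases hcq : t ^ 2 ≤ l / (t + 1)
    · have h1 := rat_step' hc (by positivity) (ih _ hql hcq)
      refine h1.mono ?_
      have h2 : (1764 + 72 * C) * av t / (2 * ((t : ℝ) + 2) ^ 5) ≤ (1764 + 72 * C) * av t / 2 := by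
        have h3 : (1 : ℝ) ≤ ((t : ℝ) + 2) ^ 5 := one_le_pow₀ (by linarith)
        have h4 : 0 ≤ (1764 + 72 * C) * av t := by positivity
        rw [div_le_div_iff₀ (by positivity) (by norm_num)]
        nlinarith
      have h5 : 0 ≤ C * av t := by positivity
      nlinarith
    · push Not at hcq
      set q := l / (t + 1) with hqdef
      have h1 := rat_step' hc (by positivity) (H q hcq.le)
      refine h1.mono ?_
      have h2 : ((q : ℝ) + t) ≤ 12 * ((t : ℝ) + 2) ^ 2 := by
        have h3 : (q : ℝ) + 1 ≤ (t : ℝ) ^ 2 := by exact_mod_cast hcq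
        nlinarith
      have h3 : Real.sqrt t ≤ (t : ℝ) + 2 := by
        rw [Real.sqrt_le_left (by positivity)]
        nlinarith
      have h4 : C * (((q : ℝ) + t) ^ 2 * Real.sqrt t) ≤ C * (144 * ((t : ℝ) + 2) ^ 5) := by
        have h5 : ((q : ℝ) + t) ^ 2 ≤ (12 * ((t : ℝ) + 2) ^ 2) ^ 2 := by gcongr
        have h6 : ((q : ℝ) + t) ^ 2 * Real.sqrt t ≤ (12 * ((t : ℝ) + 2) ^ 2) ^ 2 * ((t : ℝ) + 2) :=
          mul_le_mul h5 h3 (by positivity) (by positivity)
        have h7 : (12 * ((t : ℝ) + 2) ^ 2) ^ 2 * ((t : ℝ) + 2) = 144 * ((t : ℝ) + 2) ^ 5 := by ring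
        rw [h7] at h6
        gcongr
      have h5 : C * (((q : ℝ) + t) ^ 2 * Real.sqrt t) / (2 * ((t : ℝ) + 2) ^ 5) ≤ 72 * C := by
        rw [div_le_iff₀ (by positivity)]
        linarith
      have h6 : 72 * C ≤ 72 * C * av t := by
        have : 0 ≤ C := hC
        nlinarith
      nlinarith

lemma log_ge_half {t : ℕ} (ht : 1 ≤ t) : (1 / 2 : ℝ) ≤ Real.log ((t : ℝ) + 1) := by
  have ht' : (1 : ℝ) ≤ t := by exact_mod_cast ht
  have h1 : (0.6931471803 : ℝ) < Real.log 2 := Real.log_two_gt_d9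
  have h2 : Real.log 2 ≤ Real.log ((t : ℝ) + 1) := Real.log_le_log (by norm_num) (by linarith)
  linarith

lemma av_le {t : ℕ} (ht : 1 ≤ t) : av t ≤ 13 * (t * Real.log ((t : ℝ) + 1)) := by
  have ht' : (1 : ℝ) ≤ t := by exact_mod_cast ht
  have hlog := log_ge_half ht
  unfold av
  have h2 : Real.log ((t : ℝ) + 2) ≤ 2 * Real.log ((t : ℝ) + 1) := by
    have h5 : 2 * Real.log ((t : ℝ) + 1) = Real.log (((t : ℝ) + 1) ^ 2) := by
      rw [Real.log_pow]; norm_num
    rw [h5]
    exact Real.log_le_log (by linarith) (by nlinarith)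
  have h3 : Real.log 2 ≤ Real.log ((t : ℝ) + 1) := Real.log_le_log (by norm_num) (by linarith)
  have h4 : ((t : ℝ) + 5) * Real.log ((t : ℝ) + 2) ≤ (6 * t) * (2 * Real.log ((t : ℝ) + 1)) := by
    have h6 : (t : ℝ) + 5 ≤ 6 * t := by linarith
    have h7 : 0 ≤ Real.log ((t : ℝ) + 2) := Real.log_nonneg (by linarith)
    exact mul_le_mul h6 h2 h7 (by positivity)
  nlinarith

/-- a constant factor for bounded `t` -/
lemma small_t (t : ℕ) : ∃ D : ℝ, 0 ≤ D ∧ ∀ l, 1 ≤ t → cLim (l + t) l ≤ D / KK t l := by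
  obtain ⟨C₁, h₁⟩ := fixed_codim
  by_cases ht : 1 ≤ t
  · obtain ⟨l₀, hl₀⟩ := h₁ t ht
    refine ⟨|C₁ * (t * Real.log (t + 1))| + KK t l₀, by have := KK_pos t l₀; positivity,
      fun l _ => ?_⟩
    have hK := KK_pos t l
    have hK0 := KK_pos t l₀
    rcases Nat.lt_or_ge l l₀ with h | h
    · refine Rat.cLim_le (rat_trivial ?_) (by positivity)
      have := KK_mono t h.le
      have := abs_nonneg (C₁ * (t * Real.log (t + 1)))
      linarith
    · have h2 := hl₀ l h
      rw [numSub_add] at h2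
      refine h2.trans (div_le_div_of_nonneg_right ?_ hK.le)
      have := le_abs_self (C₁ * (t * Real.log (t + 1)))
      linarith
  · exact ⟨0, le_rfl, fun l h => absurd h ht⟩

open MP7c0edd in
/-- the two bounds for all pairs -/
theorem two_bounds (h : SpecBase) : ∃ C : ℝ, 0 ≤ C ∧ ∀ l t : ℕ, 1 ≤ t →
    (t ^ 2 ≤ l → cLim (l + t) l ≤ C * (t * Real.log (t + 1)) / KK t l) ∧
    cLim (l + t) l ≤ C * (((l : ℝ) + t) ^ 2 * Real.sqrt t) / KK t l := by
  obtain ⟨C₀, t₀, h₀⟩ := h
  choose D hD hDt using small_t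
  set t₁ := max t₀ 4 with ht₁
  set C₂ := ∑ t ∈ range t₁, D t with hC₂
  have hC₂0 : 0 ≤ C₂ := sum_nonneg fun t _ => hD t
  set C₃ := 1764 + 72 * |C₀| with hC₃
  have hC₃0 : 0 ≤ C₃ := by positivity
  refine ⟨2 * C₂ + 13 * C₃ + |C₀|, by positivity, fun l t ht => ?_⟩
  have ht' : (1 : ℝ) ≤ t := by exact_mod_cast ht
  have hK := KK_pos t l
  have hlog := log_ge_half ht
  have hs : 1 ≤ Real.sqrt t := by
    rw [Real.one_le_sqrt]
    exact ht'
  have hX : (1 / 2 : ℝ) ≤ t * Real.log ((t : ℝ) + 1) := by nlinarith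
  have hlogt : Real.log ((t : ℝ) + 1) ≤ t := by
    have := Real.log_le_sub_one_of_pos (show (0 : ℝ) < (t : ℝ) + 1 by linarith)
    linarith
  have hl0 : (0 : ℝ) ≤ l := by positivity
  have hY : (t : ℝ) * Real.log ((t : ℝ) + 1) ≤ ((l : ℝ) + t) ^ 2 * Real.sqrt t := by
    calc (t : ℝ) * Real.log ((t : ℝ) + 1) ≤ t * t := by gcongr
      _ ≤ ((l : ℝ) + t) ^ 2 * 1 := by nlinarith
      _ ≤ _ := by gcongr
  -- it suffices to prove the first bound or the second
  rcases Nat.lt_or_ge t t₁ with hlt | hge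
  · have h1 : cLim (l + t) l ≤ C₂ / KK t l := by
      refine (hDt t l ht).trans (div_le_div_of_nonneg_right ?_ hK.le)
      exact single_le_sum (f := D) (fun t _ => hD t) (mem_range.mpr hlt)
    have hb : ∀ Z : ℝ, 1 / 2 ≤ Z →
        cLim (l + t) l ≤ (2 * C₂ + 13 * C₃ + |C₀|) * Z / KK t l := by
      intro Z hZ
      refine h1.trans (div_le_div_of_nonneg_right ?_ hK.le)
      have h2 : 0 ≤ (13 * C₃ + |C₀|) * Z := by positivity
      nlinarith
    exact ⟨fun _ => hb _ hX, hb _ (hX.trans hY)⟩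
  · have hH : ∀ l, l ≤ t ^ 2 → Rat t l (|C₀| * (((l : ℝ) + t) ^ 2 * Real.sqrt t)) := by
      intro l hl
      have h1 := h₀ t l (by omega) hl
      have h2 : cLim (l + t) l ≤ |C₀| * (((l : ℝ) + t) ^ 2 * Real.sqrt t) / KK t l := by
        refine h1.trans (div_le_div_of_nonneg_right ?_ (KK_pos t l).le)
        exact mul_le_mul_of_nonneg_right (le_abs_self _) (by positivity)
      exact good_of_cLim (by omega) h2
    have hlarge : t ^ 2 ≤ l →
        cLim (l + t) l ≤ (2 * C₂ + 13 * C₃ + |C₀|) * (t * Real.log (t + 1)) / KK t l := by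
      intro hl
      have h1 := (rat_log (by omega) (abs_nonneg C₀) hH l hl).cLim_le (by
        have := av_pos ht
        positivity)
      refine h1.trans (div_le_div_of_nonneg_right ?_ hK.le)
      have h2 := av_le ht
      have h3 : C₃ * av t ≤ C₃ * (13 * (t * Real.log ((t : ℝ) + 1))) := by gcongr
      have h4 : 0 ≤ (2 * C₂ + |C₀|) * (t * Real.log ((t : ℝ) + 1)) := by positivity
      nlinarith
    refine ⟨hlarge, ?_⟩
    rcases Nat.lt_or_ge (t ^ 2) l with hl | hl
    · refine (hlarge hl.le).trans (div_le_div_of_nonneg_right ?_ hK.le)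
      gcongr
    · have h1 := (hH l hl).cLim_le (by positivity)
      refine h1.trans (div_le_div_of_nonneg_right ?_ hK.le)
      have h2 : 0 ≤ (2 * C₂ + 13 * C₃) * (((l : ℝ) + t) ^ 2 * Real.sqrt t) := by positivity
      nlinarith

open MP7c0edd in
theorem specFinal (h : SpecBase) : SpecFinal := by
  obtain ⟨C, hC, hb⟩ := two_bounds h
  have e0 : ∀ d l : ℕ, l < d → ∃ t, 1 ≤ t ∧ d = l + t ∧ d - l = t ∧ ((d : ℝ) - l) = t ∧
      (2 : ℝ) ^ (d - l) * (d.choose l : ℝ) = KK t l := by
    intro d l hl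
    refine ⟨d - l, by omega, by omega, rfl, ?_, ?_⟩
    · rw [Nat.cast_sub hl.le]
    · have h1 := numSub_add l (d - l)
      rw [Nat.add_sub_cancel' hl.le] at h1
      rw [← h1]
      rfl
  refine ⟨⟨C, fun d l hl => ?_⟩, ⟨C, fun d l hl hr => ?_⟩, ⟨4 * C, fun d l hl => ?_⟩⟩
  · obtain ⟨t, ht, rfl, h1, h2, h3⟩ := e0 d l hl
    rw [h3, h2]
    have := (hb l t ht).2
    push_cast
    exact this
  · obtain ⟨t, ht, rfl, h1, h2, h3⟩ := e0 d l hl
    rw [h3, h2]
    rw [h1] at hr
    exact (hb l t ht).1 hr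
  · obtain ⟨t, ht, rfl, h1, h2, h3⟩ := e0 d l hl
    rw [h3, h2]
    have hK := KK_pos t l
    have ht' : (1 : ℝ) ≤ t := by exact_mod_cast ht
    have hs : 1 ≤ Real.sqrt t := by
      rw [Real.one_le_sqrt]
      exact ht'
    rcases Nat.lt_or_ge l (t ^ 2) with h | h
    · refine ((hb l t ht).2).trans (div_le_div_of_nonneg_right ?_ hK.le)
      have h2 : (l : ℝ) + t ≤ 2 * (t : ℝ) ^ 2 := by
        have : (l : ℝ) + 1 ≤ (t : ℝ) ^ 2 := by exact_mod_cast h
        nlinarith
      calc C * (((l : ℝ) + t) ^ 2 * Real.sqrt t) ≤ C * ((2 * (t : ℝ) ^ 2) ^ 2 * Real.sqrt t) := by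
            gcongr
        _ = 4 * C * (t ^ 4 * Real.sqrt t) := by ring
    · refine ((hb l t ht).1 h).trans (div_le_div_of_nonneg_right ?_ hK.le)
      have hlog : Real.log ((t : ℝ) + 1) ≤ t := by
        have := Real.log_le_sub_one_of_pos (show (0 : ℝ) < (t : ℝ) + 1 by linarith)
        linarith
      have h3 : (t : ℝ) * Real.log ((t : ℝ) + 1) ≤ t ^ 4 * Real.sqrt t := by
        calc (t : ℝ) * Real.log ((t : ℝ) + 1) ≤ t * t := by gcongr
          _ = (t : ℝ) ^ 2 * 1 := by ring
          _ ≤ t ^ 4 * Real.sqrt t := by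
              have : (t : ℝ) ^ 2 ≤ t ^ 4 := pow_le_pow_right₀ ht' (by norm_num)
              gcongr
      calc C * (t * Real.log ((t : ℝ) + 1)) ≤ C * (t ^ 4 * Real.sqrt t) := by gcongr
        _ ≤ 4 * C * (t ^ 4 * Real.sqrt t) := by
            have : 0 ≤ C * (t ^ 4 * Real.sqrt t) := by positivity
            linarith

end Pool.Agent.Lib.MP_7c0edd_co.Poly
end
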